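import Pool.Agent.W832.HR.TriB

/-!
The boundary path of the O(n) model for `n = 0`, `x = x_c(0)`, between two opposite boundary points
of a domain which lies between a rectangle and a strip: the partition function is polynomial at all
scales, and the width of the path is of order `L` up to a logarithm.
-/

set_option autoImplicit false

namespace Pool.Agent.Results.MP_4960b8_pr.FixedEndsWidth

open scoped ENNReal

/-- Adjacency in the honeycomb lattice (brick-wall coordinates, as in the frozen statement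
S19575). -/
def Nbr (p q : ℤ × ℤ) : Prop :=
  (p.2 = q.2 ∧ (p.1 - q.1 = 1 ∨ q.1 - p.1 = 1)) ∨
    (p.1 = q.1 ∧ ((q.2 = p.2 + 1 ∧ Even (p.1 + p.2)) ∨ (p.2 = q.2 + 1 ∧ Even (q.1 + q.2))))

/-- The self-avoiding trajectories from `a` to `b` in `D`, as lists of vertices (the configurations
of the model for `n = 0`). -/
def Traj (D : Set (ℤ × ℤ)) (a b : ℤ × ℤ) : Set (List (ℤ × ℤ)) :=
  {l | l.head? = some a ∧ l.getLast? = some b ∧ l.Nodup ∧ l.IsChain Nbr ∧ ∀ p ∈ l, p ∈ D}

/-- The critical fugacity `x_c(0)`. -/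
noncomputable def xc : ℝ≥0∞ := ENNReal.ofReal (1 / Real.sqrt (2 + Real.sqrt 2))

/-- The critical partition function: the sum of `xc ^ (number of steps)` over the trajectories. -/
noncomputable def Z (D : Set (ℤ × ℤ)) (a b : ℤ × ℤ) : ℝ≥0∞ :=
  ∑' l : Traj D a b, xc ^ (l.1.length - 1)

/-- The strip with `2 L` levels, of height `3 L / 2` up to a bounded error. -/
def Strip (L : ℕ) : Set (ℤ × ℤ) := {p | 1 ≤ p.1 - p.2 ∧ p.1 - p.2 ≤ 2 * L}

/-- The rectangle: the vertices of the strip with `|x + 3 y| ≤ w`; the coordinate `x + 3 y` is, up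
to the factor `√3 / 2` and a bounded error, the Euclidean coordinate in the direction of the
strip. -/
def Rect (L : ℕ) (w : ℝ) : Set (ℤ × ℤ) :=
  {p | (1 ≤ p.1 - p.2 ∧ p.1 - p.2 ≤ 2 * L) ∧ |((p.1 + 3 * p.2 : ℤ) : ℝ)| ≤ w}

/-- The vertex of the last level of the strip which is opposite to `(1, 0)` (a vertex of the first
level). -/
def opp (L : ℕ) : ℤ × ℤ := (2 * L - (L / 2 : ℕ), -((L / 2 : ℕ) : ℤ))

/-- The lateral width of the path is at most `c`: the coordinate `x + 3 y` varies by at most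
`c`. -/
def Wid (l : List (ℤ × ℤ)) (c : ℝ) : Prop :=
  ∀ p ∈ l, ∀ q ∈ l, (((p.1 + 3 * p.2) - (q.1 + 3 * q.2) : ℤ) : ℝ) ≤ c

/-- The probability, under the critical measure on the trajectories from `(1, 0)` to `opp L` in `D`,
that the width is in `(ε L, k L]`. -/
noncomputable def P (D : Set (ℤ × ℤ)) (ε k : ℝ) (L : ℕ) : ℝ≥0∞ :=
  (∑' l : {l // l ∈ Traj D (1, 0) (opp L) ∧ ¬ Wid l (ε * L) ∧ Wid l (k * L)},
    xc ^ (l.1.length - 1)) / Z D (1, 0) (opp L)

/-- **Theorem.** For every `ρ > 0` there is `C` such that for all `L ≥ 2` and all sets `D` of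
vertices which contain the rectangle of width `2 (ρ L + 3)` and are contained in the strip, the
critical partition function of the paths in `D` between the opposite points `(1, 0)` and `opp L` is
at least `L ^ (-C)` and at most `2`, and for all `s ≥ 1` the width `W` of the path satisfies
`L / (C s log L) < W ≤ C s L log L` with probability at least `1 - L ^ (-s)`. -/
theorem result (ρ : ℝ) (hρ : 0 < ρ) : ∃ C : ℕ, 1 ≤ C ∧ ∀ L : ℕ, 2 ≤ L → ∀ D : Set (ℤ × ℤ),
    Rect L (ρ * L + 3) ⊆ D → D ⊆ Strip L →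
    ENNReal.ofReal (1 / (L : ℝ) ^ C) ≤ Z D (1, 0) (opp L) ∧
    Z D (1, 0) (opp L) ≤ 2 ∧
    ∀ s : ℕ, 1 ≤ s → ENNReal.ofReal (1 - 1 / (L : ℝ) ^ s) ≤
      P D (1 / (C * s * Real.log L)) (C * s * Real.log L) L :=
  Pool.Agent.W832.HR.rect_poly ρ hρ

end Pool.Agent.Results.MP_4960b8_pr.FixedEndsWidth
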